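import Mathlib
import Pool.Agent.WeylSub.Main

/-!
# Sub-division rings of the quotient division ring of the first Weyl algebra
-/

namespace Pool.Agent.Results.MP_7bcc96_al.SubDivisionRing

open Pool.Agent.WeylSub

/-- For every field `k` of characteristic zero the first Weyl algebra has a quotient division
ring, and every quotient division ring `Q` of it contains a sub-division ring `D` which is not PI
and not isomorphic to `Q`; if moreover `k` is the fraction field of a suitable discrete valuation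
ring, then `D` can be taken to be the fixed ring of a `k`-linear involution of `Q`. -/
theorem result (k : Type) [Field k] [CharZero k] :
    (∃ (Q : Type) (_ : DivisionRing Q) (_ : Algebra k Q) (f : WeylAlg k →ₐ[k] Q),
      IsQuotDiv (f : WeylAlg k →+* Q)) ∧
    ∀ (Q : Type) [DivisionRing Q] [Algebra k Q] (f : WeylAlg k →ₐ[k] Q),
      IsQuotDiv (f : WeylAlg k →+* Q) →
      ∃ D : Subfield Q, ¬ IsPI D ∧ IsEmpty (D ≃+* Q) ∧
        (HasGoodDVR k →
          ∃ φ : Q ≃ₐ[k] Q, (∀ q, φ (φ q) = q) ∧ ∀ q, q ∈ D ↔ φ q = q) := by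
  refine ⟨exists_quot k, fun Q _ _ f hf => ?_⟩
  by_cases h : HasGoodDVR k
  · obtain ⟨O, h1, h2, h3, h4, h5, h6, h7, h8⟩ := h
    obtain ⟨D, hφ, hPI, hiso⟩ := exists_sub_dvr Q f hf O h6 h7 h8
    exact ⟨D, hPI, hiso, fun _ => hφ⟩
  · by_cases hQ : Function.Surjective (algebraMap ℚ k)
    · obtain ⟨D, h1, h2⟩ := exists_sub_of_rat hQ Q f hf
      exact ⟨D, h1, h2, fun h' => absurd h' h⟩
    · obtain ⟨D, h1, h2⟩ := exists_sub_of_ne hQ Q f hf
      exact ⟨D, h1, h2, fun h' => absurd h' h⟩

end Pool.Agent.Results.MP_7bcc96_al.SubDivisionRing
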